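import Pool.Agent.W2helper16.GL.Stm

/-!
# Project GL, piece LA5

If the odd components `F`, `G` of the coupling vanish then the even ones `E`, `J` are one scalar.
-/

set_option autoImplicit false

namespace Pool.Agent.W2helper93.GL

open Pool.Agent.W2helper16.GL

universe u v

theorem p_la5 : StmLA5.{u, v} := by
  intro K _ W _ _ A B _ _ _ _ hA hB E F G J h hF hG
  subst hF hG
  have key : ∀ a a' b b', (if b = b' then E a' a else 0) = if a = a' then J b b' else 0 := by
    intro a a' b b'
    have h1 := h.gf a a' b b'
    simp only [Matrix.zero_apply, mul_zero, add_zero] at h1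
    exact sub_eq_zero.mp h1.symm
  obtain ⟨a0⟩ := hA
  obtain ⟨b0⟩ := hB
  have hJ0 : ∀ a, E a a = J b0 b0 := fun a => by simpa using key a a b0 b0
  have hE0 : ∀ b, J b b = E a0 a0 := fun b => by simpa using (key a0 a0 b b).symm
  refine ⟨E a0 a0, fun a a' => ?_, fun b b' => ?_⟩
  · by_cases haa : a = a'
    · subst haa
      simp [hJ0 a, hE0 b0]
    · have h1 := key a' a b0 b0
      simpa [haa, Ne.symm haa] using h1
  · by_cases hbb : b = b'
    · subst hbb
      simp [hE0 b]
    · have h1 := key a0 a0 b b'
      simpa [hbb] using h1.symm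

end Pool.Agent.W2helper93.GL
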